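import Pool.Agent.MP_5f72fe_nt.H3.SpecC

/-! Two inequivalent cubic forms attached to a class of order three. -/

namespace Pool.Agent.MP_5f72fe_nt.H82

open NumberField Pool.Agent.MP_1246c0_nt Pool.Agent.MP_1246c0_nt.H55 Pool.Agent.MP_5f72fe_nt.H3

section Field

variable {k : Type} [Field k] [NumberField k]

/-- the data of an attached form, written out -/
structure Dat (s : k) (τ : k ≃ₐ[ℚ] k) (q : ℕ) (δ : k) (f : Fm ℤ) (α β : k) (n : ℚ) : Prop where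
  hd : δ ≠ 0
  hn : n ≠ 0
  det : α * τ β - τ α * β = n * s
  cube : (n : k) ^ 3 = q * (δ * τ δ)
  i0 : IsIntegral ℤ (α ^ 3 / δ)
  i1 : IsIntegral ℤ (α ^ 2 * β / δ)
  i2 : IsIntegral ℤ (α * β ^ 2 / δ)
  i3 : IsIntegral ℤ (β ^ 3 / δ)
  e0 : (f 0 : k) * s = α ^ 3 / δ - τ α ^ 3 / τ δ
  e1 : (f 1 : k) * s = α ^ 2 * β / δ - τ α ^ 2 * τ β / τ δ
  e2 : (f 2 : k) * s = α * β ^ 2 / δ - τ α * τ β ^ 2 / τ δ
  e3 : (f 3 : k) * s = β ^ 3 / δ - τ β ^ 3 / τ δ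

variable {s : k} {τ : k ≃ₐ[ℚ] k} {q : ℕ} {δ : k} {f : Fm ℤ} {α β : k} {n : ℚ}

theorem Dat.comb (h : Dat s τ q δ f α β n) (c0 c1 c2 c3 : ℤ) {x : k}
    (e : x = c0 * (α ^ 3 / δ) + c1 * (α ^ 2 * β / δ) + c2 * (α * β ^ 2 / δ) + c3 * (β ^ 3 / δ)) :
    IsIntegral ℤ x := by
  have hc : ∀ c : ℤ, IsIntegral ℤ (c : k) := fun c => isIntegral_algebraMap (x := c)
  rw [e]
  exact ((((hc _).mul h.i0).add ((hc _).mul h.i1)).add ((hc _).mul h.i2)).add ((hc _).mul h.i3)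

theorem Dat.act (h : Dat s τ q δ f α β n) (a b c d : ℤ) (e : a * d - b * c = 1) :
    Dat s τ q δ (act f a b c d) (a * α + c * β) (b * α + d * β) n := by
  have e' : (a : k) * d - b * c = 1 := by exact_mod_cast e
  refine ⟨h.hd, h.hn, ?_, h.cube,
    h.comb (a ^ 3) (3 * a ^ 2 * c) (3 * a * c ^ 2) (c ^ 3) ?_,
    h.comb (a ^ 2 * b) (a ^ 2 * d + 2 * a * b * c) (2 * a * c * d + b * c ^ 2) (c ^ 2 * d) ?_,
    h.comb (a * b ^ 2) (2 * a * b * d + b ^ 2 * c) (a * d ^ 2 + 2 * b * c * d) (c * d ^ 2) ?_,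
    h.comb (b ^ 3) (3 * b ^ 2 * d) (3 * b * d ^ 2) (d ^ 3) ?_, ?_, ?_, ?_, ?_⟩
  · simp only [map_add, map_mul, map_intCast]
    linear_combination h.det + (α * τ β - τ α * β) * e'
  · push_cast
    ring
  · push_cast
    ring
  · push_cast
    ring
  · push_cast
    ring
  · simp only [map_add, map_mul, map_intCast, H55.act, ev, Matrix.cons_val_zero]
    push_cast
    linear_combination (a : k) ^ 3 * h.e0 + 3 * (a : k) ^ 2 * c * h.e1 + 3 * (a : k) * c ^ 2 * h.e2 +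
      (c : k) ^ 3 * h.e3
  · simp only [map_add, map_mul, map_intCast, H55.act, ev, Matrix.cons_val_zero,
      Matrix.cons_val_one]
    push_cast
    linear_combination (a : k) ^ 2 * b * h.e0 + ((a : k) ^ 2 * d + 2 * a * b * c) * h.e1 +
      (2 * (a : k) * c * d + b * c ^ 2) * h.e2 + (c : k) ^ 2 * d * h.e3
  · simp only [map_add, map_mul, map_intCast, H55.act, ev, Matrix.cons_val]
    push_cast
    linear_combination (a : k) * b ^ 2 * h.e0 + (2 * (a : k) * b * d + b ^ 2 * c) * h.e1 +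
      ((a : k) * d ^ 2 + 2 * b * c * d) * h.e2 + (c : k) * d ^ 2 * h.e3
  · simp only [map_add, map_mul, map_intCast, H55.act, ev, Matrix.cons_val]
    push_cast
    linear_combination (b : k) ^ 3 * h.e0 + 3 * (b : k) ^ 2 * d * h.e1 + 3 * (b : k) * d ^ 2 * h.e2 +
      (d : k) ^ 3 * h.e3

theorem Dat.hd' (h : Dat s τ q δ f α β n) : τ δ ≠ 0 := by simpa using h.hd

theorem Dat.hn' (h : Dat s τ q δ f α β n) : (n : k) ≠ 0 := by exact_mod_cast h.hn

theorem Dat.hq (h : Dat s τ q δ f α β n) : (q : k) ≠ 0 := by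
  intro h0
  have := h.cube
  rw [h0, zero_mul] at this
  exact pow_ne_zero 3 h.hn' this

theorem Dat.inv (h : Dat s τ q δ f α β n) : (n : k) ^ 3 * (δ⁻¹ * (τ δ)⁻¹) = q := by
  have h1 := h.hd
  have h2 := h.hd'
  rw [h.cube]
  field_simp

theorem Dat.dsc (h : Dat s τ q δ f α β n) (hs : s ≠ 0) :
    ((dsc f : ℤ) : k) = (q : k) ^ 2 * s ^ 2 := by
  refine mul_right_cancel₀ (pow_ne_zero 4 hs) ?_
  have e : ((H55.dsc f : ℤ) : k) * s ^ 4 =
      ((f 0 * s) * (f 3 * s) - (f 1 * s) * (f 2 * s)) ^ 2 -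
        4 * ((f 0 * s) * (f 2 * s) - (f 1 * s) ^ 2) * ((f 1 * s) * (f 3 * s) - (f 2 * s) ^ 2) := by
    simp only [H55.dsc]
    push_cast
    ring
  have e2 : ((H55.dsc f : ℤ) : k) * s ^ 4 =
      (δ⁻¹ * (τ δ)⁻¹) ^ 2 * (α * τ β - τ α * β) ^ 6 := by
    rw [e, h.e0, h.e1, h.e2, h.e3]
    ring
  rw [e2, h.det, ← h.inv]
  ring

theorem Dat.cov (h : Dat s τ q δ f α β n) (hs : s ≠ 0) :
    (f 0 : k) ^ 2 * f 3 - 3 * f 0 * f 1 * f 2 + 2 * (f 1 : k) ^ 3 =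
      q * (f 0 * s - 2 * (α ^ 3 / δ)) := by
  refine mul_right_cancel₀ (pow_ne_zero 3 hs) ?_
  have e : ((f 0 : k) ^ 2 * f 3 - 3 * f 0 * f 1 * f 2 + 2 * (f 1 : k) ^ 3) * s ^ 3 =
      (f 0 * s) ^ 2 * (f 3 * s) - 3 * (f 0 * s) * (f 1 * s) * (f 2 * s) + 2 * (f 1 * s) ^ 3 := by
    ring
  have e2 : ((f 0 : k) ^ 2 * f 3 - 3 * f 0 * f 1 * f 2 + 2 * (f 1 : k) ^ 3) * s ^ 3 =
      -(δ⁻¹ * (τ δ)⁻¹) * (α ^ 3 / δ + τ α ^ 3 / τ δ) * (α * τ β - τ α * β) ^ 3 := by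
    rw [e, h.e0, h.e1, h.e2, h.e3]
    ring
  rw [e2, h.det, ← h.inv, h.e0]
  ring

theorem Dat.indep (h : Dat s τ q δ f α β n) (hs : s ≠ 0) (x y : ℤ)
    (e : (x : k) * α + y * β = 0) : x = 0 ∧ y = 0 := by
  have e' : (x : k) * τ α + y * τ β = 0 := by
    have := congrArg τ e
    simpa only [map_add, map_mul, map_intCast, map_zero] using this
  have h0 : (n : k) * s ≠ 0 := mul_ne_zero h.hn' hs
  have hx : (x : k) * (n * s) = 0 := by
    linear_combination τ β * e - β * e' - (x : k) * h.det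
  have hy : (y : k) * (n * s) = 0 := by
    linear_combination α * e' - τ α * e - (y : k) * h.det
  exact ⟨by exact_mod_cast (mul_eq_zero.1 hx).resolve_right h0,
    by exact_mod_cast (mul_eq_zero.1 hy).resolve_right h0⟩

theorem Dat.aniso (h : Dat s τ q δ f α β n) (hs : s ≠ 0) (hc : ¬ ∃ y : k, δ = q * y ^ 3) :
    Aniso f := by
  intro x y e
  by_contra hne
  have hξ : (x : k) * α + y * β ≠ 0 := fun h0 => hne (h.indep hs x y h0)
  have e1 : ((ev f x y : ℤ) : k) = 0 := by rw [e, Int.cast_zero]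
  simp only [ev] at e1
  push_cast at e1
  have e2 : ((x : k) * α + y * β) ^ 3 / δ = ((x : k) * τ α + y * τ β) ^ 3 / τ δ := by
    linear_combination s * e1 - (x : k) ^ 3 * h.e0 - 3 * (x : k) ^ 2 * y * h.e1 -
      3 * (x : k) * y ^ 2 * h.e2 - (y : k) ^ 3 * h.e3
  generalize (x : k) * α + y * β = ξ at hξ e2
  generalize (x : k) * τ α + y * τ β = ξ' at e2
  have h1 := h.hd
  have h2 := h.hd'
  have h3 := h.hn'
  have h4 := h.cube
  refine hc ⟨ξ * (ξ * ξ') / (n * (ξ ^ 3 / δ)), ?_⟩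
  rw [div_eq_div_iff h1 h2] at e2
  field_simp
  linear_combination ξ ^ 3 * h4 + q * δ * e2


/-- the conjugate data -/
theorem Dat.conj (h : Dat s τ q δ f α β n) (hτ : ∀ x, τ (τ x) = x)
    (hint : ∀ x : k, IsIntegral ℤ x → ∃ b : ℤ, (b : k) * s = x - τ x) :
    ∃ g, Dat s τ q (τ δ) g (τ β) (τ α) n := by
  have hi : ∀ x : k, IsIntegral ℤ x → IsIntegral ℤ (τ x) := fun x hx =>
    hx.map (τ : k →+* k).toIntAlgHom
  have j0 : IsIntegral ℤ (τ β ^ 3 / τ δ) := by simpa only [map_div₀, map_pow] using hi _ h.i3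
  have j1 : IsIntegral ℤ (τ β ^ 2 * τ α / τ δ) := by
    have := hi _ h.i2
    simp only [map_div₀, map_pow, map_mul] at this
    rwa [mul_comm] at this
  have j2 : IsIntegral ℤ (τ β * τ α ^ 2 / τ δ) := by
    have := hi _ h.i1
    simp only [map_div₀, map_pow, map_mul] at this
    rwa [mul_comm] at this
  have j3 : IsIntegral ℤ (τ α ^ 3 / τ δ) := by simpa only [map_div₀, map_pow] using hi _ h.i0
  obtain ⟨b0, e0⟩ := hint _ j0
  obtain ⟨b1, e1⟩ := hint _ j1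
  obtain ⟨b2, e2⟩ := hint _ j2
  obtain ⟨b3, e3⟩ := hint _ j3
  simp only [map_div₀, map_pow, map_mul] at e0 e1 e2 e3
  refine ⟨![b0, b1, b2, b3], h.hd', h.hn, ?_, ?_, j0, j1, j2, j3, e0, e1, e2, e3⟩
  · rw [hτ, hτ]
    linear_combination h.det
  · rw [hτ]
    linear_combination h.cube

/-- the two forms are inequivalent -/
theorem Dat.ne {g : Fm ℤ} {α' β' : k} (h : Dat s τ 1 δ f α β n) (h' : Dat s τ 1 (τ δ) g α' β' n)
    (hs : s ≠ 0) (hc : ¬ ∃ y : k, δ = y ^ 3) : ¬ Eqv f g := by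
  rintro ⟨a, b, c, d, a', b', c', d', e, e', E⟩
  have h1 := h.act a b c d e
  have h2 := h'.act a' b' c' d' e'
  rw [← E] at h2
  have e1 := mul_left_cancel₀ h1.hq ((h1.cov hs).symm.trans (h2.cov hs))
  have h0 : (a' : k) * α' + c' * β' ≠ 0 := fun h0 =>
    one_ne_zero (h2.indep hs 1 0 (by simp [h0])).1
  have h0' : (a : k) * α + c * β ≠ 0 := fun h0 =>
    one_ne_zero (h1.indep hs 1 0 (by simp [h0])).1
  generalize (a' : k) * α' + c' * β' = x' at e1 h0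
  generalize (a : k) * α + c * β = x at e1 h0'
  have e2 : x ^ 3 / δ = x' ^ 3 / τ δ := by linear_combination (-1 / 2 : k) * e1
  have hd := h.hd
  have hd' := h.hd'
  have hn := h.hn'
  have cube := h.cube
  rw [div_eq_div_iff hd hd'] at e2
  push_cast at cube
  refine hc ⟨δ * x' / (n * x), ?_⟩
  field_simp
  linear_combination x ^ 3 * cube + δ * e2

end Field

/-- an ideal whose class has order three -/
theorem exists_ideal (K : Type) [Field K] [NumberField K] (h : 3 ∣ Nat.card (ClassGroup (𝓞 K))) :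
    ∃ (I : Ideal (𝓞 K)) (δ : 𝓞 K), I ≠ ⊥ ∧ I ^ 3 = Ideal.span {δ} ∧ ¬ I.IsPrincipal := by
  have : Fact (Nat.Prime 3) := ⟨Nat.prime_three⟩
  obtain ⟨c, hc⟩ := exists_prime_orderOf_dvd_card' (G := ClassGroup (𝓞 K)) 3 h
  obtain ⟨I, rfl⟩ := ClassGroup.mk0_surjective c
  have hI : (I : Ideal (𝓞 K)) ≠ ⊥ := nonZeroDivisors.coe_ne_zero I
  have key : ∀ J : nonZeroDivisors (Ideal (𝓞 K)),
      ClassGroup.mk0 J = 1 ↔ (J : Ideal (𝓞 K)).IsPrincipal := fun ⟨_, hJ⟩ =>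
    ClassGroup.mk0_eq_one_iff hJ
  have h3 : ClassGroup.mk0 (I ^ 3) = 1 := by
    rw [map_pow, ← hc, pow_orderOf_eq_one]
  have h4 := (key _).1 h3
  rw [SubmonoidClass.coe_pow] at h4
  obtain ⟨δ, hδ⟩ := h4
  rw [Ideal.submodule_span_eq] at hδ
  refine ⟨I, δ, hI, hδ, fun hp => ?_⟩
  rw [(key _).2 hp, orderOf_one] at hc
  omega

theorem rowALGN : OfALGN := by
  intro hQ K _ _ n s τ hq h3
  obtain ⟨hrep, -⟩ := hQ.rep K n s τ hq
  have hτ : ∀ x, τ (τ x) = x := by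
    intro x
    obtain ⟨a, b, e1, e2⟩ := hrep x
    rw [e2, map_sub, map_mul, map_ratCast, map_ratCast, hq.conj, e1]
    ring
  have hn0 : (n : K) ≠ 0 := by
    have := hq.md
    have h0 : n ≠ 0 := by omega
    exact_mod_cast h0
  have hs : s ≠ 0 := by
    intro h0
    have := hq.sq
    rw [h0] at this
    exact hn0 (by linear_combination this)
  have hint : ∀ x : K, IsIntegral ℤ x → ∃ b : ℤ, (b : K) * s = x - τ x := by
    intro x hx
    obtain ⟨a, b, e⟩ := (hQ.int K n s τ hq x).1 hx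
    refine ⟨b, ?_⟩
    rw [e]
    simp only [map_add, map_mul, map_intCast, map_div₀, map_one, map_ofNat, hq.conj]
    ring
  obtain ⟨I, δ, hI, hI3, hnp⟩ := exists_ideal K h3
  have hδ : δ ≠ 0 := by
    rintro rfl
    rw [Ideal.span_singleton_zero] at hI3
    exact pow_ne_zero 3 hI hI3
  have hδ' : (δ : K) ≠ 0 := by simpa using hδ
  obtain ⟨α, hα, β, hβ, det, -⟩ := hQ.basis K n s τ hq I hI
  have hN0 : Ideal.absNorm I ≠ 0 := fun h0 => hI (Ideal.absNorm_eq_zero_iff.1 h0)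
  have cm : ∀ x y : 𝓞 K, ((x * y : 𝓞 K) : K) = x * y := fun x y => map_mul (algebraMap _ K) x y
  have cp : ∀ (x : 𝓞 K) (j : ℕ), ((x ^ j : 𝓞 K) : K) = x ^ j := fun x j =>
    map_pow (algebraMap _ K) x j
  have hmem : ∀ x : 𝓞 K, x ∈ I ^ 3 → IsIntegral ℤ ((x : K) / δ) := by
    intro x hx
    rw [hI3] at hx
    obtain ⟨c, hc⟩ := Ideal.mem_span_singleton'.1 hx
    have : (x : K) / δ = c := by
      rw [← hc, cm]
      field_simp
    rw [this]
    exact RingOfIntegers.isIntegral_coe c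
  have m3 : ∀ x ∈ I, ∀ y ∈ I, ∀ z ∈ I, x * y * z ∈ I ^ 3 := by
    intro x hx y hy z hz
    rw [pow_three']
    exact Ideal.mul_mem_mul (Ideal.mul_mem_mul hx hy) hz
  have j0 : IsIntegral ℤ ((α : K) ^ 3 / δ) := by
    have := hmem _ (m3 α hα α hα α hα)
    rwa [← pow_three', cp] at this
  have j1 : IsIntegral ℤ ((α : K) ^ 2 * β / δ) := by
    have := hmem _ (m3 α hα α hα β hβ)
    rwa [← pow_two, cm, cp] at this
  have j2 : IsIntegral ℤ ((α : K) * β ^ 2 / δ) := by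
    have := hmem _ (m3 α hα β hβ β hβ)
    rwa [mul_assoc, ← pow_two, cm, cp] at this
  have j3 : IsIntegral ℤ ((β : K) ^ 3 / δ) := by
    have := hmem _ (m3 β hβ β hβ β hβ)
    rwa [← pow_three', cp] at this
  obtain ⟨b0, e0⟩ := hint _ j0
  obtain ⟨b1, e1⟩ := hint _ j1
  obtain ⟨b2, e2⟩ := hint _ j2
  obtain ⟨b3, e3⟩ := hint _ j3
  simp only [map_div₀, map_pow, map_mul] at e0 e1 e2 e3
  have cube : (((Ideal.absNorm I : ℕ) : ℚ) : K) ^ 3 = ((1 : ℕ) : K) * ((δ : K) * τ δ) := by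
    rw [hQ.norm K n s τ hq δ, ← hI3, map_pow]
    push_cast
    ring
  have h1 : Dat s τ 1 (δ : K) ![b0, b1, b2, b3] α β ((Ideal.absNorm I : ℕ) : ℚ) :=
    ⟨hδ', by exact_mod_cast hN0, by rw [det, Rat.cast_natCast], cube, j0, j1, j2, j3,
      e0, e1, e2, e3⟩
  obtain ⟨g, h2⟩ := h1.conj hτ hint
  have hc : ¬ ∃ y : K, (δ : K) = y ^ 3 := by
    rintro ⟨y, hy⟩
    have hyi : IsIntegral ℤ y :=
      IsIntegral.of_pow (n := 3) (by norm_num) (hy ▸ RingOfIntegers.isIntegral_coe δ)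
    obtain ⟨y', rfl⟩ : ∃ y' : 𝓞 K, (y' : K) = y := ⟨⟨y, hyi⟩, rfl⟩
    have e : δ = y' ^ 3 := by
      apply RingOfIntegers.ext
      rw [cp]
      exact hy
    rw [e, ← Ideal.span_singleton_pow] at hI3
    have := pow_left_injective (M := Ideal (𝓞 K)) (n := 3) (by norm_num) hI3
    exact hnp ⟨⟨_, this⟩⟩
  have hd : ∀ {f : Fm ℤ} {δ α β : K} {m : ℚ}, Dat s τ 1 δ f α β m → dsc f = -n := by
    intro f δ α β m h
    have := h.dsc hs
    rw [hq.sq, Nat.cast_one, one_pow, one_mul] at this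
    exact_mod_cast this
  refine ⟨_, g, h1.aniso hs ?_, h2.aniso hs ?_, hd h1, hd h2, h1.ne h2 hs hc⟩
  · simpa using hc
  · rintro ⟨y, hy⟩
    refine hc ⟨τ y, ?_⟩
    rw [← hτ δ, hy]
    simp

end Pool.Agent.MP_5f72fe_nt.H82
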